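import Pool.Agent.H799R2.LipInterp

set_option autoImplicit false

/-!
For all exponents `1 ≤ β < γ < α < ∞` the space `L^γ[0,1]` is a Lipschitz interpolation space
between `L^β[0,1]` and `L^α[0,1]`.

Idea of the proof.  Approximating in `L^β` and using Fatou's lemma, the `L^α` Lipschitz estimate
of `U` extends to all pairs of points of `L^β` whose difference is in `L^α`.  Given `x, y` and
`t > 0`, split `x - y` at height `t`, insert the intermediate point, apply the two Lipschitz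
estimates to the two increments, and integrate the resulting weak type bounds in `t`.
-/

open MeasureTheory Set
open scoped ENNReal

namespace Pool.Agent.Results.MP_6e3e44_an.LipschitzInterpolation

/-- Lebesgue measure on `[0,1]`. -/
noncomputable abbrev lam : Measure ℝ := volume.restrict (Set.Icc (0 : ℝ) 1)

/-- The norm `‖x‖_p` of an element `x` of `L^p[0,1]`. -/
noncomputable def nrm (p : ℝ≥0∞) (x : ℝ → ℂ) : ℝ := (eLpNorm x p lam).toReal

/-- `L^γ[0,1]` is a Lipschitz interpolation space with constant `C` between `L^β[0,1]` and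
`L^α[0,1]` (complex valued functions).  Elements of `L^α` and `L^γ` are regarded as elements of
`L^β`, and membership of `x` in `L^p` is `MemLp x p lam`. -/
def IsLipschitzInterpolation (β γ α : ℝ≥0∞) (C : ℝ) : Prop :=
  ∀ (U : Lp ℂ β lam → Lp ℂ β lam) (M₀ M₁ : ℝ),
    (∀ x : Lp ℂ β lam, MemLp x α lam → MemLp (U x) α lam) →
    (∀ x y : Lp ℂ β lam,
      nrm β (fun t => U x t - U y t) ≤ M₀ * nrm β (fun t => x t - y t)) →
    (∀ x y : Lp ℂ β lam, MemLp x α lam → MemLp y α lam →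
      nrm α (fun t => U x t - U y t) ≤ M₁ * nrm α (fun t => x t - y t)) →
    (∀ x : Lp ℂ β lam, MemLp x γ lam → MemLp (U x) γ lam) ∧
    (∀ x y : Lp ℂ β lam, MemLp x γ lam → MemLp y γ lam →
      nrm γ (fun t => U x t - U y t) ≤ C * max M₀ M₁ * nrm γ (fun t => x t - y t))

/-- **Main theorem.** -/
theorem result (β γ α : ℝ≥0∞) (hβ : 1 ≤ β) (hβγ : β < γ) (hγα : γ < α) (hα : α < ∞) :
    ∃ C : ℝ, 0 < C ∧ IsLipschitzInterpolation β γ α C := by
  haveI : Fact (1 ≤ β) := ⟨hβ⟩
  have hβt : β ≠ ∞ := (hβγ.trans (hγα.trans hα)).ne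
  have hγt : γ ≠ ∞ := (hγα.trans hα).ne
  have hβ0 : β ≠ 0 := (zero_lt_one.trans_le hβ).ne'
  have hγ0 : γ ≠ 0 := (zero_lt_one.trans_le (hβ.trans hβγ.le)).ne'
  have hbc : β.toReal < γ.toReal := (ENNReal.toReal_lt_toReal hβt hγt).2 hβγ
  have hca : γ.toReal < α.toReal := (ENNReal.toReal_lt_toReal hγt hα.ne).2 hγα
  have hb0 : 0 < β.toReal := ENNReal.toReal_pos hβ0 hβt
  have hc0 : 0 < γ.toReal := hb0.trans hbc
  have hac : 0 < α.toReal - γ.toReal := by linarith
  have hcb : 0 < γ.toReal - β.toReal := by linarith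
  set C : ℝ := 2 * (γ.toReal / (α.toReal - γ.toReal) +
    γ.toReal / (γ.toReal - β.toReal)) ^ (1 / γ.toReal) with hC
  have hCpos : 0 < C := by positivity
  refine ⟨C, hCpos, ?_⟩
  intro U M₀ M₁ hmap h0 h1
  -- pointwise differences and differences in `Lp`
  have hsub : ∀ (x y : Lp ℂ β lam) (p : ℝ≥0∞),
      eLpNorm (fun t => x t - y t) p lam = eLpNorm (x - y : Lp ℂ β lam) p lam := fun x y p =>
    (eLpNorm_congr_ae (Lp.coeFn_sub x y)).symm
  simp only [nrm, hsub] at h0 h1 ⊢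
  have hM0 : 0 ≤ M₀ := by
    by_contra hneg
    push Not at hneg
    have hone : MemLp (fun _ : ℝ => (1 : ℂ)) β lam := memLp_const _
    have h2 := h0 (hone.toLp _) 0
    rw [sub_zero] at h2
    have h3 : 0 < (eLpNorm (hone.toLp _ : Lp ℂ β lam) β lam).toReal := by
      refine ENNReal.toReal_pos ?_ (Lp.eLpNorm_ne_top _)
      rw [eLpNorm_congr_ae hone.coeFn_toLp, eLpNorm_const _ hβ0]
      · simp
      · intro h4
        have h5 : lam Set.univ = 0 := by rw [h4]; simp
        simp [lam] at h5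
    have h6 : 0 ≤ (eLpNorm (U (hone.toLp _) - U 0 : Lp ℂ β lam) β lam).toReal :=
      ENNReal.toReal_nonneg
    nlinarith
  set M : ℝ := max M₀ M₁ with hM
  have hMnn : 0 ≤ M := hM0.trans (le_max_left _ _)
  have h0' : ∀ x y : Lp ℂ β lam, ‖U x - U y‖ ≤ M * ‖x - y‖ := by
    intro x y
    rw [Lp.norm_def, Lp.norm_def]
    exact (h0 x y).trans (mul_le_mul_of_nonneg_right (le_max_left _ _) ENNReal.toReal_nonneg)
  have h1' : ∀ x y : Lp ℂ β lam, MemLp x α lam → MemLp y α lam →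
      eLpNorm (U x - U y : Lp ℂ β lam) α lam ≤
        ENNReal.ofReal M * eLpNorm (x - y : Lp ℂ β lam) α lam := by
    intro x y hx hy
    have h7 : eLpNorm (U x - U y : Lp ℂ β lam) α lam ≠ ∞ := by
      rw [← hsub]; exact ((hmap x hx).sub (hmap y hy)).eLpNorm_ne_top
    have h8 : eLpNorm (x - y : Lp ℂ β lam) α lam ≠ ∞ := by
      rw [← hsub]; exact (hx.sub hy).eLpNorm_ne_top
    rw [← ENNReal.ofReal_toReal h7, ← ENNReal.ofReal_toReal h8, ← ENNReal.ofReal_mul hMnn]
    exact ENNReal.ofReal_le_ofReal ((h1 x y hx hy).trans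
      (mul_le_mul_of_nonneg_right (le_max_right _ _) ENNReal.toReal_nonneg))
  have hmain := fun x y => Pool.Agent.H799R2.LipInterp.interp (γ := γ) hβt hβγ hγα hα.ne hMnn U
    h0' h1' x y
  have hfin : ∀ x y : Lp ℂ β lam, MemLp x γ lam → MemLp y γ lam →
      eLpNorm (U x - U y : Lp ℂ β lam) γ lam < ∞ := by
    intro x y hx hy
    refine (hmain x y).trans_lt (ENNReal.mul_lt_top ENNReal.ofReal_lt_top ?_)
    rw [← hsub]; exact (hx.sub hy).eLpNorm_lt_top
  refine ⟨?_, ?_⟩
  · intro x hx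
    have hz : MemLp (⇑(0 : Lp ℂ β lam)) γ lam :=
      (memLp_congr_ae (Lp.coeFn_zero ℂ β lam)).2 MemLp.zero
    have hz' : MemLp (⇑(0 : Lp ℂ β lam)) α lam :=
      (memLp_congr_ae (Lp.coeFn_zero ℂ β lam)).2 MemLp.zero
    have h9 : MemLp (⇑(U x - U 0)) γ lam := ⟨Lp.aestronglyMeasurable _, hfin x 0 hx hz⟩
    have h10 : MemLp (⇑(U 0)) γ lam := (hmap 0 hz').mono_exponent hγα.le
    have h11 : MemLp (⇑(U x - U 0 + U 0)) γ lam :=
      (memLp_congr_ae (Lp.coeFn_add _ _)).2 (h9.add h10)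
    rwa [sub_add_cancel] at h11
  · intro x y hx hy
    have h12 : eLpNorm (x - y : Lp ℂ β lam) γ lam ≠ ∞ := by
      rw [← hsub]; exact (hx.sub hy).eLpNorm_ne_top
    have h13 := ENNReal.toReal_mono (ENNReal.mul_ne_top ENNReal.ofReal_ne_top h12) (hmain x y)
    rwa [ENNReal.toReal_mul, ENNReal.toReal_ofReal (by positivity)] at h13

end Pool.Agent.Results.MP_6e3e44_an.LipschitzInterpolation
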